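import Pool.Agent.Helper76.P17.StC

/-!
# Project P17 (levels `17^n`), module DIME: the dimension of `subE`

Adapted from `Pool/Agent/Helper9/P13/M_DIME.lean`.
-/

set_option autoImplicit false

namespace Pool.Agent.Helper37.P17

open Pool.Agent.Helper14.CV (Homog EqC act Tl)
open Pool.Agent.Helper28.WK (SymP)
open Pool.Agent.Helper14.W5 (NewSymP NSP)
open Pool.Agent.Helper76.P17

section lin

variable {W W' : Type} [AddCommGroup W] [Module ℂ W] [FiniteDimensional ℂ W] [AddCommGroup W']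
  [Module ℂ W']

private theorem rn (f : W →ₗ[ℂ] W') (V : Submodule ℂ W) :
    Module.finrank ℂ (V.map f) + Module.finrank ℂ ↥(V ⊓ LinearMap.ker f) =
      Module.finrank ℂ V := by
  have h := LinearMap.finrank_range_add_finrank_ker (f.domRestrict V)
  rw [LinearMap.range_domRestrict, LinearMap.ker_domRestrict] at h
  have h2 : Module.finrank ℂ ↥((LinearMap.ker f).comap V.subtype) =
      Module.finrank ℂ ↥(V ⊓ LinearMap.ker f) := by
    rw [← Submodule.map_comap_subtype, Submodule.finrank_map_subtype_eq]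
  rw [h2] at h
  exact h

end lin

section lin2

variable {W W' : Type} [AddCommGroup W] [Module ℂ W] [FiniteDimensional ℂ W] [AddCommGroup W']
  [Module ℂ W'] [FiniteDimensional ℂ W']

private theorem fr_prod (V : Submodule ℂ W) (V' : Submodule ℂ W') :
    Module.finrank ℂ ↥(V.prod V') = Module.finrank ℂ V + Module.finrank ℂ V' := by
  have h1 : V.prod V' = LinearMap.range (V.subtype.prodMap V'.subtype) := by
    rw [LinearMap.range_prodMap, Submodule.range_subtype, Submodule.range_subtype]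
  rw [h1, LinearMap.finrank_range_of_inj, Module.finrank_prod]
  rintro ⟨a, b⟩ ⟨a', b'⟩ h
  simp only [LinearMap.prodMap_apply, Submodule.subtype_apply, Prod.mk.injEq,
    SetLike.coe_eq_coe] at h
  rw [h.1, h.2]

private theorem fr_pi {ι : Type} [Fintype ι] (V : ι → Submodule ℂ W) :
    Module.finrank ℂ ↥(Submodule.pi Set.univ V) = ∑ i, Module.finrank ℂ (V i) := by
  have h1 : Submodule.pi Set.univ V =
      LinearMap.range (LinearMap.pi fun i => (V i).subtype.comp (LinearMap.proj i) :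
        ((i : ι) → V i) →ₗ[ℂ] (ι → W)) := by
    ext x
    constructor
    · intro hx
      exact ⟨fun i => ⟨x i, hx i (Set.mem_univ i)⟩, rfl⟩
    · rintro ⟨y, rfl⟩ i _
      exact (y i).2
  rw [h1, LinearMap.finrank_range_of_inj, Module.finrank_pi_fintype]
  intro y y' h
  funext i
  exact Subtype.ext (congrFun h i)

end lin2

private theorem pw0 {m : ℕ} (hm : 1 ≤ m) : (17 : ZMod (17 ^ m)) * 17 ^ (m - 1) = 0 := by
  rw [← pow_succ', Nat.sub_add_cancel hm]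
  have h3 := ZMod.natCast_self (17 ^ m)
  push_cast at h3
  exact h3

private theorem red {m : ℕ} (hm : 1 ≤ m) (t : ℤ) :
    (t : ZMod (17 ^ m)) * 17 ^ (m - 1) = ((t : ZMod 17).val : ZMod (17 ^ m)) * 17 ^ (m - 1) := by
  have h1 : ((t : ZMod 17).val : ℤ) = t % 17 := by
    rw [ZMod.val_intCast]
    norm_num
  have h2 : (((t : ZMod 17).val : ℕ) : ZMod (17 ^ m)) = ((t % 17 : ℤ) : ZMod (17 ^ m)) := by
    rw [← h1]
    push_cast
    rfl
  rw [h2]
  have h3 : t = t % 17 + 17 * (t / 17) := (Int.emod_add_mul_ediv t 17).symm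
  have h4 : (t : ZMod (17 ^ m)) = ((t % 17 : ℤ) : ZMod (17 ^ m)) + 17 * ((t / 17 : ℤ) : ZMod (17 ^ m)) := by
    conv_lhs => rw [h3]
    push_cast
    ring
  rw [h4]
  linear_combination ((t / 17 : ℤ) : ZMod (17 ^ m)) * pw0 hm

private theorem sum_zmod (g : ℕ → ℂ) :
    ∑ i ∈ Finset.range 17, g i = ∑ z : ZMod 17, g z.val := by
  have : ∀ h : ZMod 17 → ℂ, ∑ z : ZMod 17, h z = ∑ i : Fin 17, h i := fun h => rfl
  rw [Finset.sum_range, this]
  rfl

private theorem sum_s {m : ℕ} (hm : 1 ≤ m) (s : ℤ) (hs : ¬ (17 : ℤ) ∣ s)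
    (g : ZMod (17 ^ m) → ℂ) :
    ∑ i ∈ Finset.range 17, g (s * ((i : ZMod (17 ^ m)) * 17 ^ (m - 1))) =
      ∑ i ∈ Finset.range 17, g ((i : ZMod (17 ^ m)) * 17 ^ (m - 1)) := by
  have hf : Fact (Nat.Prime 17) := ⟨by norm_num⟩
  have hs0 : (s : ZMod 17) ≠ 0 := by
    intro h
    exact hs ((ZMod.intCast_zmod_eq_zero_iff_dvd s 17).1 h)
  rw [sum_zmod (fun i => g (s * ((i : ZMod (17 ^ m)) * 17 ^ (m - 1)))),
    sum_zmod (fun i => g ((i : ZMod (17 ^ m)) * 17 ^ (m - 1)))]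
  refine Fintype.sum_equiv (Equiv.mulLeft₀ (s : ZMod 17) hs0) _ _ fun z => ?_
  have h1 := red hm (s * (z.val : ℤ))
  have h2 : ((s * (z.val : ℤ) : ℤ) : ZMod 17) = (s : ZMod 17) * z := by
    push_cast
    rw [ZMod.natCast_zmod_val]
  rw [h2] at h1
  change g (s * ((z.val : ZMod (17 ^ m)) * 17 ^ (m - 1))) =
    g ((((s : ZMod 17) * z).val : ZMod (17 ^ m)) * 17 ^ (m - 1))
  rw [← h1]
  congr 1
  push_cast
  ring

private theorem anti_s {m : ℕ} (hm : 1 ≤ m) {F : Pt m → ℂ} (hF : F ∈ anti17 m) (s : ℤ)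
    (hs : ¬ (17 : ℤ) ∣ s) (x y : ZMod (17 ^ m)) :
    ∑ i ∈ Finset.range 17, F (x + s * (i * 17 ^ (m - 1)), y) = 0 ∧
      ∑ i ∈ Finset.range 17, F (x, y + s * (i * 17 ^ (m - 1))) = 0 := by
  obtain ⟨h1, h2⟩ := hF (x, y)
  constructor
  · rw [sum_s hm s hs (fun t => F (x + t, y))]
    exact h1
  · rw [sum_s hm s hs (fun t => F (x, y + t))]
    exact h2

private theorem dv_step {m : ℕ} (hm : 1 ≤ m) {s : ℤ} {φ : ZMod (17 ^ m) → ZMod (17 ^ m)}
    (h : Dv s φ) (x : ZMod (17 ^ m)) (i : ℕ) :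
    φ (x + i * 17 ^ (m - 1)) = φ x + s * (i * 17 ^ (m - 1)) := by
  have h1 := h (m - 1) (x + i * 17 ^ (m - 1)) x ⟨i, by ring⟩
  have h2 : (17 : ZMod (17 ^ m)) ^ (m - 1 + 1) = 0 := by
    rw [Nat.sub_add_cancel hm]
    have h3 := ZMod.natCast_self (17 ^ m)
    push_cast at h3
    exact h3
  rw [h2, zero_dvd_iff] at h1
  linear_combination h1

private theorem anti_comp {m n : ℕ} (hm : 1 ≤ m) {r : Pt m → Pt m} (hr : Ty n r) {F : Pt m → ℂ}
    (hF : F ∈ anti17 m) : (fun p => F (r p)) ∈ anti17 m := by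
  rcases hr with ⟨_, s, s', φ, φ', hs, _, hs', _, hφ, hφ', hr⟩ | ⟨_, s, s', ψ, ψ', hs, hs', hψ, hψ', hr⟩
  · intro p
    simp only [hr, dv_step hm hφ, dv_step hm hφ']
    exact ⟨(anti_s hm hF s hs (φ p.1) (φ' p.2)).1, (anti_s hm hF s' hs' (φ p.1) (φ' p.2)).2⟩
  · intro p
    simp only [hr, dv_step hm hψ, dv_step hm hψ']
    exact ⟨(anti_s hm hF s' hs' (ψ p.2) (ψ' p.1)).2, (anti_s hm hF s hs (ψ p.2) (ψ' p.1)).1⟩


private theorem n1 : (((-1 : ℤ) : ℂ)) = -1 := by push_cast; rfl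
private theorem p1 : (((1 : ℤ) : ℂ)) = 1 := by push_cast; rfl

/-- The three relations as linear maps. -/
private def K1 {m : ℕ} : FnE m →ₗ[ℂ] (Pt m → ℂ) where
  toFun F p := alt ng sw F.1.1 p
  map_add' F F' := by
    funext p
    simp only [alt, Prod.fst_add, Pi.add_apply]
    ring
  map_smul' c F := by
    funext p
    simp only [alt, Prod.smul_fst, Pi.smul_apply, smul_eq_mul, RingHom.id_apply]
    ring

private def K2 {m : ℕ} : FnE m →ₗ[ℂ] (Pt m → ℂ) where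
  toFun F p := alt (dR 1) c8 F.1.2 p
  map_add' F F' := by
    funext p
    simp only [alt, Prod.fst_add, Prod.snd_add, Pi.add_apply]
    ring
  map_smul' c F := by
    funext p
    simp only [alt, Prod.smul_fst, Prod.smul_snd, Pi.smul_apply, smul_eq_mul, RingHom.id_apply]
    ring

private def K3 {m : ℕ} : FnE m →ₗ[ℂ] (Pt m → ℂ) where
  toFun F p := sm4 cQ cR (wF F) p
  map_add' F F' := by
    funext p
    simp only [sm4, wF_add, Pi.add_apply]
    ring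
  map_smul' c F := by
    funext p
    simp only [sm4, wF_smul, Pi.smul_apply, smul_eq_mul, RingHom.id_apply]
    ring

private theorem K1_apply {m : ℕ} (F : FnE m) (p : Pt m) : K1 F p = alt ng sw F.1.1 p := rfl

private theorem K2_apply {m : ℕ} (F : FnE m) (p : Pt m) : K2 F p = alt (dR 1) c8 F.1.2 p := rfl

private theorem K3_apply {m : ℕ} (F : FnE m) (p : Pt m) : K3 F p = sm4 cQ cR (wF F) p := rfl

private theorem wF_mem {m : ℕ} (hm : 1 ≤ m) (hg : ∀ i : Fin 7, Ty 1 (gX i : Pt m → Pt m))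
    {F : FnE m} (h1 : F.1.1 ∈ anti17 m) (h2 : F.1.2 ∈ anti17 m)
    (hX : ∀ i : Fin 7, F.2.1 i ∈ anti17 m) (hC : ∀ i : Fin 6, F.2.2.1 i ∈ anti17 m)
    (hA : ∀ i : Fin 3, F.2.2.2 i ∈ anti17 m) : wF F ∈ anti17 m := by
  have e : wF F = F.1.2 - F.1.1 - ∑ i : Fin 6, F.2.2.1 i - ∑ i : Fin 3, F.2.2.2 i -
      ∑ i : Fin 7, F.2.1 i - ∑ i : Fin 7, ((eX i : ℤ) : ℂ) • (fun p => F.2.1 i (gX i p)) := by
    funext p
    simp only [wF, Pi.sub_apply, Finset.sum_apply, Pi.smul_apply, smul_eq_mul]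
  rw [e]
  refine Submodule.sub_mem _ (Submodule.sub_mem _ (Submodule.sub_mem _ (Submodule.sub_mem _
    (Submodule.sub_mem _ h2 h1) ?_) ?_) ?_) ?_
  · exact Submodule.sum_mem _ fun i _ => hC i
  · exact Submodule.sum_mem _ fun i _ => hA i
  · exact Submodule.sum_mem _ fun i _ => hX i
  · exact Submodule.sum_mem _ fun i _ => Submodule.smul_mem _ _ (anti_comp hm (hg i) (hX i))

private theorem alt_mem {m n n' n'' : ℕ} (hm : 1 ≤ m) {r r' : Pt m → Pt m} (hk : Kl r r') (h : Ty n r)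
    (h' : Ty n' r') (h'' : Ty n'' (fun p => r (r' p))) {F : Pt m → ℂ} (hF : F ∈ anti17 m) :
    (fun p => alt r r' F p) ∈ inv17 (m := m) r r' (-1) 1 := by
  refine ⟨?_, fun p => ⟨?_, ?_⟩⟩
  · have e : (fun p => alt r r' F p) = F + (fun p => F (r' p)) - (fun p => F (r p)) -
      (fun p => F (r (r' p))) := rfl
    rw [e]
    exact Submodule.sub_mem _ (Submodule.sub_mem _ (Submodule.add_mem _ hF (anti_comp hm h' hF))
      (anti_comp hm h hF)) (anti_comp hm h'' hF)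
  · change alt r r' F (r p) = -1 * alt r r' F p
    unfold alt
    rw [← hk.2.2 p, hk.1 p, hk.1 (r' p)]
    ring
  · change alt r r' F (r' p) = 1 * alt r r' F p
    unfold alt
    rw [hk.2.1 p]
    ring

private theorem sm4_mem {m n n' n'' : ℕ} (hm : 1 ≤ m) {r r' : Pt m → Pt m} (hk : Kl r r') (h : Ty n r)
    (h' : Ty n' r') (h'' : Ty n'' (fun p => r (r' p))) {F : Pt m → ℂ} (hF : F ∈ anti17 m) :
    (fun p => sm4 r r' F p) ∈ inv17 (m := m) r r' 1 1 := by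
  refine ⟨?_, fun p => ⟨?_, ?_⟩⟩
  · have e : (fun p => sm4 r r' F p) = F + (fun p => F (r' p)) + (fun p => F (r p)) +
      (fun p => F (r (r' p))) := rfl
    rw [e]
    exact Submodule.add_mem _ (Submodule.add_mem _ (Submodule.add_mem _ hF (anti_comp hm h' hF))
      (anti_comp hm h hF)) (anti_comp hm h'' hF)
  · change sm4 r r' F (r p) = 1 * sm4 r r' F p
    unfold sm4
    rw [← hk.2.2 p, hk.1 p, hk.1 (r' p)]
    ring
  · change sm4 r r' F (r' p) = 1 * sm4 r r' F p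
    unfold sm4
    rw [hk.2.1 p]
    ring

/-- **Module DIME.** -/
theorem hDimE : StHDimE := by
  intro ht hk hs m hm
  obtain ⟨⟨a1, a2, a3, a4⟩, -, -, -, ⟨c1, c2, c3, c4⟩, ⟨g1, g2, g3, g4⟩, uC, uA, uX⟩ := ht m
  obtain ⟨eV, q1, q2⟩ := hk m hm
  have eC := fun i : Fin 6 => q1 (cC i) (-1) (uC i).1 (uC i).2 (Or.inr rfl)
  have eA := fun i : Fin 3 => q1 (rA i) 1 (uA i).1 (uA i).2 (Or.inl rfl)
  have e0 := q2 ng sw 0 1 1 (-1) 1 a1 a2 a3 a4 (Or.inr rfl) (Or.inl rfl)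
  have e8 := q2 (dR 1) c8 0 1 1 (-1) 1 c1 c2 c3 c4 (Or.inr rfl) (Or.inl rfl)
  have eQ := q2 cQ cR 1 1 0 1 1 g1 g2 g3 g4 (Or.inl rfl) (Or.inl rfl)
  rw [n1] at eC
  rw [p1] at eA eQ
  rw [n1, p1] at e0 e8
  obtain ⟨VX, hVX⟩ : ∃ VX : Fin 7 → Submodule ℂ (Pt m → ℂ), VX = fun _ => anti17 m := ⟨_, rfl⟩
  obtain ⟨VC, hVC⟩ : ∃ VC : Fin 6 → Submodule ℂ (Pt m → ℂ),
    VC = fun i => inv1 (m := m) (cC i) (-1) := ⟨_, rfl⟩
  obtain ⟨VA, hVA⟩ : ∃ VA : Fin 3 → Submodule ℂ (Pt m → ℂ),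
    VA = fun i => inv1 (m := m) (rA i) 1 := ⟨_, rfl⟩
  have mX : ∀ f : Fin 7 → Pt m → ℂ, f ∈ Submodule.pi Set.univ VX ↔ ∀ i, f i ∈ anti17 m := by
    intro f
    rw [hVX]
    simp [Submodule.mem_pi]
  have mC : ∀ f : Fin 6 → Pt m → ℂ, f ∈ Submodule.pi Set.univ VC ↔
      ∀ i, f i ∈ inv1 (m := m) (cC i) (-1) := by
    intro f
    rw [hVC]
    simp [Submodule.mem_pi]
  have mA : ∀ f : Fin 3 → Pt m → ℂ, f ∈ Submodule.pi Set.univ VA ↔
      ∀ i, f i ∈ inv1 (m := m) (rA i) 1 := by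
    intro f
    rw [hVA]
    simp [Submodule.mem_pi]
  set T0 := inv17 (m := m) ng sw (-1) 1 with hT0
  set T8 := inv17 (m := m) (dR 1) c8 (-1) 1 with hT8
  set TQ := inv17 (m := m) cQ cR 1 1 with hTQ
  set Q : FnE m →ₗ[ℂ] (((Pt m → ℂ) × (Pt m → ℂ)) × (Pt m → ℂ)) :=
    LinearMap.prod (LinearMap.prod K1 K2) K3 with hQ
  have hQa : ∀ F, Q F = ((K1 F, K2 F), K3 F) := fun _ => rfl
  obtain ⟨S, hS⟩ : ∃ S : Submodule ℂ (FnE m), S = ((anti17 m).prod (anti17 m)).prod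
    ((Submodule.pi Set.univ VX).prod ((Submodule.pi Set.univ VC).prod
      (Submodule.pi Set.univ VA))) := ⟨_, rfl⟩
  have hmap : S.map Q = (T0.prod T8).prod TQ := by
    apply le_antisymm
    · rintro _ ⟨F, hF, rfl⟩
      rw [hS] at hF
      obtain ⟨⟨h1, h2⟩, hX, hC, hA⟩ := hF
      have hX' := (mX _).1 hX
      have hC' := (mC _).1 hC
      have hA' := (mA _).1 hA
      rw [hQa]
      have zW := wF_mem hm uX h1 h2 hX' (fun i => (hC' i).1) (fun i => (hA' i).1)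
      exact ⟨⟨alt_mem hm a1 a2 a3 a4 h1, alt_mem hm c1 c2 c3 c4 h2⟩, sm4_mem hm g1 g2 g3 g4 zW⟩
    · rintro ⟨⟨φ, ψ⟩, ω⟩ ⟨⟨hφ, hψ⟩, hω⟩
      simp only at hφ hψ hω
      have k1 : ∀ p, φ (ng p) = -1 * φ p := fun p => (hφ.2 p).1
      have k2 : ∀ p, φ (sw p) = 1 * φ p := fun p => (hφ.2 p).2
      have k3 : ∀ p, ψ (dR 1 p) = -1 * ψ p := fun p => (hψ.2 p).1
      have k4 : ∀ p, ψ (c8 p) = 1 * ψ p := fun p => (hψ.2 p).2
      have k7 : ∀ p, ω (cQ p) = 1 * ω p := fun p => (hω.2 p).1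
      have k8 : ∀ p, ω (cR p) = 1 * ω p := fun p => (hω.2 p).2
      obtain ⟨w, hwd⟩ : ∃ w : Pt m → ℂ, w = ((4 : ℂ)⁻¹) • ω := ⟨_, rfl⟩
      obtain ⟨s, hsd⟩ : ∃ s : Pt m → ℂ, s = ((4 : ℂ)⁻¹) • φ := ⟨_, rfl⟩
      obtain ⟨t, htd⟩ : ∃ t : Pt m → ℂ, t = ((4 : ℂ)⁻¹) • ψ - w := ⟨_, rfl⟩
      have hw : w ∈ anti17 m := by
        rw [hwd]
        exact Submodule.smul_mem _ _ hω.1
      have hs' : s ∈ anti17 m := by
        rw [hsd]
        exact Submodule.smul_mem _ _ hφ.1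
      have ht' : t ∈ anti17 m := by
        rw [htd]
        exact Submodule.sub_mem _ (Submodule.smul_mem _ _ hψ.1) hw
      have hwp : ∀ p, w p = 4⁻¹ * ω p := fun p => by rw [hwd]; rfl
      have hsp : ∀ p, s p = 4⁻¹ * φ p := fun p => by rw [hsd]; rfl
      have htp : ∀ p, t p = 4⁻¹ * ψ p - w p := fun p => by rw [htd]; rfl
      obtain ⟨f1, hf1, l1, hl1, fn1, ld1, uu⟩ := hs 1 m hm s hs'
      obtain ⟨f2, hf2, l2, hl2, fn2, ld2, vv⟩ := hs 1 m hm t ht'
      have hG : l1 + f2 ∈ anti17 m := Submodule.add_mem _ hl1 hf2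
      have hG2 : l1 + f2 + w ∈ anti17 m := Submodule.add_mem _ hG hw
      have hW : ∀ p, wF ((((l1 + f2, l1 + f2 + w), (0, (0, 0))) : FnE m)) p = w p := by
        intro p
        simp only [wF, Pi.add_apply, Pi.zero_apply, Finset.sum_const_zero, mul_zero]
        ring
      refine ⟨((l1 + f2, l1 + f2 + w), (0, (0, 0))), ?_, ?_⟩
      · rw [hS]
        exact ⟨⟨hG, hG2⟩, Submodule.zero_mem _, Submodule.zero_mem _, Submodule.zero_mem _⟩
      rw [hQa, Prod.mk.injEq, Prod.mk.injEq]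
      refine ⟨⟨?_, ?_⟩, ?_⟩
      · funext p
        rw [K1_apply]
        simp only [alt, Pi.add_apply]
        have z1 := uu p
        have z2 := uu (sw p)
        have z3 := uu (ng p)
        have z4 := uu (ng (sw p))
        rw [hsp] at z1 z2 z3 z4
        rw [k2] at z2
        rw [k1, fn1] at z3
        rw [k1, k2, fn1] at z4
        rw [fn2 p, fn2 (sw p)]
        linear_combination z1 + z2 - z3 - z4
      · funext p
        rw [K2_apply]
        simp only [alt, Pi.add_apply]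
        have z1 := vv p
        have z2 := vv (c8 p)
        have z3 := vv (dR 1 p)
        have z4 := vv (dR 1 (c8 p))
        rw [htp] at z1 z2 z3 z4
        rw [k4] at z2
        rw [k3, ld2] at z3
        rw [k3, k4, ld2] at z4
        rw [ld1 p, ld1 (c8 p)]
        linear_combination z1 + z2 - z3 - z4
      · funext p
        rw [K3_apply]
        simp only [sm4, hW]
        have y1 := hwp p
        have y2 := hwp (cR p)
        have y3 := hwp (cQ p)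
        have y4 := hwp (cQ (cR p))
        rw [k8] at y2
        rw [k7] at y3
        rw [k7, k8] at y4
        linear_combination y1 + y2 + y3 + y4
  have hker : S ⊓ LinearMap.ker Q = subE m := by
    ext F
    constructor
    · rintro ⟨hF, h13⟩
      rw [hS] at hF
      obtain ⟨⟨h1, h2⟩, hX, hC, hA⟩ := hF
      rw [SetLike.mem_coe, LinearMap.mem_ker, hQa, Prod.mk_eq_zero, Prod.mk_eq_zero] at h13
      obtain ⟨⟨k1, k2⟩, k3⟩ := h13
      exact ⟨⟨h1, h2, (mX _).1 hX⟩, ⟨(mC _).1 hC, (mA _).1 hA⟩, fun p => congrFun k1 p,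
        fun p => congrFun k2 p, fun p => congrFun k3 p⟩
    · rintro ⟨⟨h1, h2, hX⟩, ⟨hC, hA⟩, k1, k2, k3⟩
      refine ⟨?_, ?_⟩
      · rw [hS]
        exact ⟨⟨h1, h2⟩, (mX _).2 hX, (mC _).2 hC, (mA _).2 hA⟩
      · rw [SetLike.mem_coe, LinearMap.mem_ker, hQa, Prod.mk_eq_zero, Prod.mk_eq_zero]
        exact ⟨⟨funext k1, funext k2⟩, funext k3⟩
  have i1 : FiniteDimensional ℂ ((Pt m → ℂ) × (Pt m → ℂ)) := inferInstance
  have i2 : FiniteDimensional ℂ ((Fin 6 → Pt m → ℂ) × (Fin 3 → Pt m → ℂ)) := Module.Finite.prod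
  have i3 : FiniteDimensional ℂ
    ((Fin 7 → Pt m → ℂ) × ((Fin 6 → Pt m → ℂ) × (Fin 3 → Pt m → ℂ))) := Module.Finite.prod
  have i4 : FiniteDimensional ℂ (FnE m) := Module.Finite.prod
  have h6 := rn Q S
  rw [hmap, hker, hS] at h6
  simp only [fr_prod, fr_pi] at h6
  have hba : 17 ^ (m - 1) ≤ 289 ^ (m - 1) := Nat.pow_le_pow_left (by norm_num) _
  obtain ⟨a, ha⟩ : ∃ a : ℕ, a = 289 ^ (m - 1) := ⟨_, rfl⟩
  obtain ⟨b, hb⟩ : ∃ b : ℕ, b = 17 ^ (m - 1) := ⟨_, rfl⟩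
  have haz : (289 : ℤ) ^ (m - 1) = (a : ℤ) := by rw [ha]; push_cast; rfl
  have hbz : (17 : ℤ) ^ (m - 1) = (b : ℤ) := by rw [hb]; push_cast; rfl
  rw [haz, hbz] at e0 e8 eQ
  rw [← ha] at eV
  rw [← ha, ← hb] at hba ⊢
  have fX : ∑ i, Module.finrank ℂ (VX i) = 7 * (256 * a) := by
    rw [Finset.sum_congr rfl fun i _ => (by rw [hVX, eV] : Module.finrank ℂ (VX i) = 256 * a)]
    simp
  have fC : ∑ i, Module.finrank ℂ (VC i) = 6 * (128 * a - 8 * b) := by
    rw [Finset.sum_congr rfl fun i _ => (?_ : Module.finrank ℂ (VC i) = 128 * a - 8 * b)]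
    · simp
    · have h := eC i
      rw [haz, hbz] at h
      rw [hVC]
      change Module.finrank ℂ ↥(inv1 (m := m) (cC i) (-1)) = _
      push_cast at h
      omega
  have fA : ∑ i, Module.finrank ℂ (VA i) = 3 * (128 * a + 8 * b) := by
    rw [Finset.sum_congr rfl fun i _ => (?_ : Module.finrank ℂ (VA i) = 128 * a + 8 * b)]
    · simp
    · have h := eA i
      rw [haz, hbz] at h
      rw [hVA]
      change Module.finrank ℂ ↥(inv1 (m := m) (rA i) 1) = _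
      push_cast at h
      omega
  rw [fX, fC, fA] at h6
  push_cast at e0 e8 eQ
  omega

end Pool.Agent.Helper37.P17
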